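import Pool.Agent.helper88.HT.Spec

/-!
# Project HT (MP_069684_lc), row EXR (from DP)
-/

set_option autoImplicit false

namespace Pool.Agent.helper88.HT

open Pool.Agent.helper38.Neg Pool.Agent.helper55.NT

/-- forcing a bit through the first rail -/
private theorem EXR_al0 {n : ℕ} (p q y : Fin n → Bool) (i : Fin n) :
    Al (Function.update p i false) q y ↔ Al p q y ∧ y i = false := by
  unfold Al
  constructor
  · intro h
    have hi : y i = false := by
      by_contra hc
      have h1 : y i = true := by simpa using hc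
      have h2 := (h i).1 h1
      rw [Function.update_self] at h2
      exact absurd h2 (by decide)
    refine ⟨fun j => ⟨fun hj => ?_, (h j).2⟩, hi⟩
    have hne : j ≠ i := by
      rintro rfl
      rw [hi] at hj
      exact absurd hj (by decide)
    have := (h j).1 hj
    rwa [Function.update_of_ne hne] at this
  · rintro ⟨h, hi⟩ j
    refine ⟨fun hj => ?_, (h j).2⟩
    have hne : j ≠ i := by
      rintro rfl
      rw [hi] at hj
      exact absurd hj (by decide)
    rw [Function.update_of_ne hne]
    exact (h j).1 hj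

/-- forcing a bit through the second rail -/
private theorem EXR_al1 {n : ℕ} (p q y : Fin n → Bool) (i : Fin n) :
    Al p (Function.update q i false) y ↔ Al p q y ∧ y i = true := by
  unfold Al
  constructor
  · intro h
    have hi : y i = true := by
      by_contra hc
      have h1 : y i = false := by simpa using hc
      have h2 := (h i).2 h1
      rw [Function.update_self] at h2
      exact absurd h2 (by decide)
    refine ⟨fun j => ⟨(h j).1, fun hj => ?_⟩, hi⟩
    have hne : j ≠ i := by
      rintro rfl
      rw [hi] at hj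
      exact absurd hj (by decide)
    have := (h j).2 hj
    rwa [Function.update_of_ne hne] at this
  · rintro ⟨h, hi⟩ j
    refine ⟨(h j).1, fun hj => ?_⟩
    have hne : j ≠ i := by
      rintro rfl
      rw [hi] at hj
      exact absurd hj (by decide)
    rw [Function.update_of_ne hne]
    exact (h j).2 hj

private theorem EXR_upd {n m : ℕ} (P : Fin n → Fn m) (i : Fin n) (x : Fin m → Bool) :
    (fun j => Function.update P i (fun _ => false) j x) =
      Function.update (fun j => P j x) i false := by
  funext j
  by_cases hj : j = i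
  · subst hj
    simp
  · simp [Function.update_of_ne hj]

private theorem EXR_range {n m : ℕ} (P : Fin n → Fn m) (i : Fin n) :
    Set.range (Function.update P i (fun _ => false)) ⊆ Set.range P ∪ {fun _ => false} := by
  rintro f ⟨j, rfl⟩
  by_cases hj : j = i
  · subst hj
    simp
  · rw [Function.update_of_ne hj]
    exact Or.inl ⟨j, rfl⟩

private theorem EXR_one (h1 : DP_stmt) (n m k : ℕ) (H : Fin n → Gk k) (P Q : Fin n → Fn m)
    (i : Fin n) (b : Bool) :
    Rel (Set.range P ∪ Set.range Q) (3 * n * 2 ^ (k + 1) + 3) 0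
      {h | ∃ σ, ∀ x, h x = ex H (fun i => P i x) (fun i => Q i x) σ b i} := by
  have hc := Rel.const (Set.range P ∪ Set.range Q) (n := m) false
  cases b with
  | false =>
    have hD := h1 n m k H (Function.update P i (fun _ => false)) Q
    refine (hc.trans' (hD.mono ?_ ?_ le_rfl le_rfl)).mono le_rfl le_rfl (by omega) (by omega)
    · intro f hf
      rcases hf with hf | hf
      · rcases EXR_range P i hf with h | h
        · exact Or.inl (Or.inl h)
        · exact Or.inr h
      · exact Or.inl (Or.inr hf)
    · rintro h ⟨σ, hσ⟩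
      refine ⟨σ, fun x => ?_⟩
      rw [hσ x, EXR_upd]
      unfold ex
      refine Iff.trans (@decide_eq_true_iff _ (_)) ?_
      constructor
      · rintro ⟨y, hy1, hy2, hy3⟩
        exact ⟨y, (EXR_al0 _ _ _ _).2 ⟨hy1, hy2⟩, hy3⟩
      · rintro ⟨y, hy1, hy2⟩
        obtain ⟨hy3, hy4⟩ := (EXR_al0 _ _ _ _).1 hy1
        exact ⟨y, hy3, hy4, hy2⟩
  | true =>
    have hD := h1 n m k H P (Function.update Q i (fun _ => false))
    refine (hc.trans' (hD.mono ?_ ?_ le_rfl le_rfl)).mono le_rfl le_rfl (by omega) (by omega)
    · intro f hf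
      rcases hf with hf | hf
      · exact Or.inl (Or.inl hf)
      · rcases EXR_range Q i hf with h | h
        · exact Or.inl (Or.inr h)
        · exact Or.inr h
    · rintro h ⟨σ, hσ⟩
      refine ⟨σ, fun x => ?_⟩
      rw [hσ x, EXR_upd]
      unfold ex
      refine Iff.trans (@decide_eq_true_iff _ (_)) ?_
      constructor
      · rintro ⟨y, hy1, hy2, hy3⟩
        exact ⟨y, (EXR_al1 _ _ _ _).2 ⟨hy1, hy2⟩, hy3⟩
      · rintro ⟨y, hy1, hy2⟩
        obtain ⟨hy3, hy4⟩ := (EXR_al1 _ _ _ _).1 hy1
        exact ⟨y, hy3, hy4, hy2⟩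

/-- ROW ht:EXR (from DP). -/
theorem EXR (h1 : DP_stmt) : EXR_stmt := by
  intro n m k H P Q
  have h := Rel.biUnion (F := Set.range P ∪ Set.range Q) (m := 3 * n * 2 ^ (k + 1) + 3)
    (Finset.univ : Finset (Fin n × Bool))
    (fun w => {h | ∃ σ, ∀ x, h x = ex H (fun i => P i x) (fun i => Q i x) σ w.2 w.1})
    (fun w _ => EXR_one h1 n m k H P Q w.1 w.2)
  refine h.mono le_rfl ?_ ?_ le_rfl
  · rintro f ⟨σ, b, i, hf⟩
    simp only [Set.mem_iUnion]
    exact ⟨(i, b), Finset.mem_univ _, σ, hf⟩
  · rw [Finset.card_univ, Fintype.card_prod, Fintype.card_fin, Fintype.card_bool, mul_comm n 2]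

end Pool.Agent.helper88.HT
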